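import Pool.Agent.Q22.GW.Curve

/-!
# The complexes `Γ(X,n) ⊗ ℚ` of open subsets of the projective line over finite fields

Let `k` be an algebraic extension of `F_p`, for instance a finite field, and let `X` be a regular
curve with function field `F = k(x)`, for instance an open subset of `P^1_k`. The complexes
`Γ(X,2) ⊗ ℚ` and `Γ(X,3) ⊗ ℚ` are acyclic, and for all `n ≥ 2` the groups `H^i(Γ(X,n) ⊗ ℚ)` vanish
for `i = 1, n, n + 1` and, if `n ≥ 3`, for `i = n - 1`.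

The closed points form a set `X`, the field `κ x` is the residue field of `x ∈ X`; it is an
algebraic extension of `F_p`. The residue maps `res` may be arbitrary homomorphisms.

The definitions are in `Pool/Agent/H39R2/GonP/Defs.lean` and `Pool/Agent/TH358/BG/Defs.lean`.
-/

namespace Pool.Agent.Results.MP_bae8ce_ag.WeightThreeRationalCurves

open GonP Pool.Agent.TH358.BG

theorem result (p : ℕ) [Fact p.Prime] (k : Type) [Field k] [Algebra (ZMod p) k]
    [Algebra.IsAlgebraic (ZMod p) k] (X : Type) (κ : X → Type) [∀ x, Field (κ x)]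
    [∀ x, Algebra (ZMod p) (κ x)] [∀ x, Algebra.IsAlgebraic (ZMod p) (κ x)] :
    -- the differentials exist
    Nonempty (Differentials (RatFunc k)) ∧ (∀ x, Nonempty (Differentials (κ x))) ∧
    ∀ (DF : Differentials (RatFunc k)) (Dκ : ∀ x, Differentials (κ x)) (res : Res (RatFunc k) κ),
      -- `H^1(Γ(X,n) ⊗ ℚ) = 0` for `n = m + 2 ≥ 2`
      (∀ m z, tot DF Dκ res (m + 1) 0 z = 0 → z = 0) ∧
      -- `H^(n-1)(Γ(X,n) ⊗ ℚ) = 0` for `n = j + 3 ≥ 3`
      (∀ j z, tot DF Dκ res 1 (j + 1) z = 0 ↔ ∃ w, tot DF Dκ res 2 j w = z) ∧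
      -- `H^n(Γ(X,n) ⊗ ℚ) = 0` for `n = j + 2 ≥ 2`
      (∀ j z, tot DF Dκ res 0 (j + 1) z = 0 ↔ ∃ w, tot DF Dκ res 1 j w = z) ∧
      -- `H^(n+1)(Γ(X,n) ⊗ ℚ) = 0` for `n = j + 2 ≥ 2`
      (∀ j z, ∃ w, tot DF Dκ res 0 (j + 1) w = z) := by
  refine ⟨?_, fun x => nonempty_diff p (κ x), fun DF Dκ res =>
    Pool.Agent.Q22.GW.curve p k X κ DF Dκ res⟩
  obtain ⟨D, -⟩ := Pool.Agent.Q22.GW.ratFunc_complexes p k
  exact ⟨D⟩

end Pool.Agent.Results.MP_bae8ce_ag.WeightThreeRationalCurves
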